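import Pool.Agent.Lib.MP_641cb6_lc.CD.Final3
import Pool.Agent.Lib.MP_641cb6_lc.CD.Levels2
import Pool.Agent.Lib.MP_641cb6_lc.CD.Chain
import Pool.Agent.Lib.MP_641cb6_lc.CD.Struc2
import Pool.Agent.Lib.MP_641cb6_lc.CD.Subst2
import Pool.Agent.Lib.MP_641cb6_lc.CD.Num2
import Pool.Agent.Lib.MP_641cb6_lc.CD.Red
import Pool.Agent.Lib.MP_641cb6_lc.CD.HVer
import Pool.Agent.Lib.MP_641cb6_lc.CD.Sem3
import Pool.Agent.Lib.MP_641cb6_lc.CD.Stat3
import Pool.Agent.Lib.MP_641cb6_lc.CD.Altn3

namespace Pool.Agent.Results.MP_641cb6_lc.BoundedNesting

open Pool.Agent.Lib.MP_641cb6_lc.KG (GTree Branches Verifies deps)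
open Pool.Agent.Lib.MP_641cb6_lc.CD

/-- `HNSet K q v` is the set of the solvable systems of `q` quadratic equations in `v` unknowns over
`K`, given by their coefficients. In the trees, constants, products, quotients and tests are free,
and a gate is any polynomial, of any degree, in values computed before that has at most `M` terms or
is a polynomial in at most `r` of them; so additions and subtractions are gates. The level of a
value counts the alternations between gates and products: inputs and constants have level `0`, a
product or a quotient has the larger level of its two arguments, a gate one more than the largest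
level of its arguments; for a gate of degree at most `1`, however, an argument that is directly the
value of another gate of degree at most `1` counts with its own level, not one more (so linear gates
applied to linear gates do not count again).
(1) Over every field and for every kind of tests, `HNSet K q v` is verified with `v` guesses in
`2 q` steps by a tree whose gates have at most `(v + 1) ^ 2 + 1` terms and which branches only on
values of level at most `1` that depend on exactly one gate.
(2) Let `d = (4096 (2 c + 2) (D + 1)) ^ (4 ^ D)`, `v ≥ 2 ^ (16 d ^ 2)`, `q ≥ v + 1` and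
`r ^ d ≤ v ^ c`. If finitely many trees (of any, even infinite depth) over `ℝ` with tests `x ≥ 0`, or
over `ℂ` with tests `x = 0`, whose gates have at most `v ^ c` terms or at most `r` arguments, decide
`HNSet K q v` jointly, then one of them branches on some input on a value which depends on a gate
whose level is larger than `D` or on a gate which depends on more than `v ^ c` gates.

The rank method is that of Limaye, Srinivasan and Tavenas (2021); lower bounds for multiples of the
polynomial whose degree is bounded by the size would follow from theirs by Chou, Kumar and Solomon
(2018); Andrews and Forbes (2022) treat all nonzero polynomials in ideals of minors. Here the degrees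
are not bounded, gates may be arbitrary polynomials in few values, there are quotients and tests, and
a set is decided. -/
theorem result :
    (∀ (K : Type) [Field K] (P : K → Prop) (q v : ℕ),
      ∃ V : GTree K, Gates V ((v + 1) * (v + 1) + 1) 0 ∧
        Verifies P V v (2 * q) (HNSet K q v) ∧
        ∀ (h : List Bool) (i : ℕ), Branches (V h) i →
          ((alts (q * ((v + 1) * (v + 1)) + v) V h).val i).1 ≤ 1 ∧
          ∃ a, (deps (q * ((v + 1) * (v + 1)) + v) V h).val i = {a} ∧
            (deps (q * ((v + 1) * (v + 1)) + v) V h).sum a = {a}) ∧
    (∀ D c v q r : ℕ, 2 ^ (16 * dd D (2 * c + 1) ^ 2) ≤ v → v + 1 ≤ q →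
      r ^ dd D (2 * c + 1) ≤ v ^ c →
      Hard3 (fun x : ℝ => 0 ≤ x) (HNSet ℝ q v) D (v ^ c) r ∧
      Hard3 (fun x : ℂ => x = 0) (HNSet ℂ q v) D (v ^ c) r) := by
  have hlev := level2Statement rankStatement derStatement (claimStatement rankStatement)
    (chainStatement rankStatement)
  have hstr := struc2 derStatement
  refine ⟨fun K _ P q v => ?_, fun D c v q r hv hq hr => ⟨?_, ?_⟩⟩
  · obtain ⟨V, h1, h2, h3⟩ := hVerStatement K P q v
    exact ⟨V, fun h s F i hh => Or.inl (h1 h s F i hh), h2,
      fun h i hb => ⟨(altn K _ V h i).trans (h3 h i hb).1, (h3 h i hb).2⟩⟩
  · exact lower3_hn semStatement statStatement hlev hstr subst2Statement red num2Statement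
      kind_real D c v q r hv hq hr
  · exact lower3_hn semStatement statStatement hlev hstr subst2Statement red num2Statement
      kind_complex D c v q r hv hq hr

end Pool.Agent.Results.MP_641cb6_lc.BoundedNesting
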