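import Pool.Agent.Lib.MP_641cb6_lc.KN.Rand
import Pool.Agent.Lib.MP_641cb6_lc.KN.RandNum
import Pool.Agent.Lib.MP_641cb6_lc.KN.Cell
import Pool.Agent.Lib.MP_641cb6_lc.KN.Up

/-!
# Random Boolean functions of nondeterministic machines over the reals
-/

set_option autoImplicit false

namespace Pool.Agent.Results.MP_641cb6_lc.GuessingMachines

open Pool.Agent.Lib.MP_641cb6_lc.KG (GTree Verifies)
open Pool.Agent.Lib.MP_641cb6_lc.KN
open MeasureTheory

/-- Computation trees over the reals with free constants, products, quotients and order tests and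
with gates that evaluate polynomials of degree at most `D` in at most `a` values. `Acc V k s x`: the
tree `V` accepts `x` for some `k` guesses from `ℝ`, in any time, with at most `s` gates.
(1) `SumSet n m` is verified with `n (m + 2) + 1` guesses in `30 (m + 1) (n + 1)` steps with gates
that are linear in two values.
(2) For each `ω` in a probability space let `V ω 0, ..., V ω (r - 1)` be trees and `f ω` a Boolean
function of `r` variables. If `S` is decided with advantage `δ` by applying `f ω` to the truth values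
of `Acc (V ω i) k s x`, and the slice of `S` at some `x₀` contains points `e 0 < e 1 < ...` but not
the points `e' 0, e' 1, ...`, `e 0 < e' 0 < e 1 < e' 1 < ... < e' (M - 1)`, then
`M δ ≤ 2 r 3 ^ (k + 1 + s) RN N ((D + 3) (L + 1))`, `L = n + k + 1 + s`, `N = k + 3 + L (a + 5)`,
`RN N d = (d + 2) ^ N (2 N + 4) ^ ((N + 1) ^ 2)`.
(3) For `SumSet n m` and for its complement this holds with `M = 2 ^ (m n)`.
(4) So they are not decided in this way if `k ≤ n ^ c`, `s ≤ n ^ c`, `r ≤ 2 ^ n ^ c`,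
`δ ≥ 2 ^ (- n ^ c)`, `a = n ^ c`, `D = 2 ^ n ^ c`, `m = n ^ (4 c + 5)`, `n ≥ c + 6`.
(5) In particular `SumSet n m` is then not a Boolean function of `r` sets accepted with `k` guesses
and `s` gates. -/
theorem result :
    (∀ n m : ℕ, ∃ V : GTree ℝ, V.Bounded 2 1 ∧
      Verifies (fun v : ℝ => 0 ≤ v) V (n * (m + 1) + (n + 1)) (30 * (m + 1) * (n + 1))
        (SumSet n m)) ∧
    (∀ (n k s a D r M : ℕ) (Ω : Type) [MeasurableSpace Ω] (μ : Measure Ω)
      [IsProbabilityMeasure μ] (V : Ω → Fin r → GTree ℝ) (f : Ω → (Fin r → Prop) → Prop)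
      (q δ : ℝ) (S : Set ((Fin n → ℝ) × ℝ)), (∀ ω i, (V ω i).Bounded a D) →
      Advantage μ (fun ω x => f ω fun i => Acc (fun v : ℝ => 0 ≤ v) (V ω i) k s x) q δ S →
      ∀ (x₀ : Fin n → ℝ) (e e' : Fin M → ℝ), (∀ i, e i < e' i) → (∀ i j, i < j → e' i < e j) →
      (∀ i, (x₀, e i) ∈ S) → (∀ i, (x₀, e' i) ∉ S) →
      (M : ℝ) * δ ≤
        ((2 * r * (3 ^ (k + 1 + s) * NB (k + 1) (a + 1) D (n + k + 1 + s)) : ℕ) : ℝ)) ∧
    (∀ (n m k s a D r : ℕ) (Ω : Type) [MeasurableSpace Ω] (μ : Measure Ω)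
      [IsProbabilityMeasure μ] (V : Ω → Fin r → GTree ℝ) (f : Ω → (Fin r → Prop) → Prop)
      (q δ : ℝ), (∀ ω i, (V ω i).Bounded a D) →
      (Advantage μ (fun ω x => f ω fun i => Acc (fun v : ℝ => 0 ≤ v) (V ω i) k s x) q δ
          (SumSet n m) ∨
        Advantage μ (fun ω x => f ω fun i => Acc (fun v : ℝ => 0 ≤ v) (V ω i) k s x) q δ
          (SumSet n m)ᶜ) →
      (2 : ℝ) ^ (m * n) * δ ≤
        ((2 * r * (3 ^ (k + 1 + s) * NB (k + 1) (a + 1) D (n + k + 1 + s)) : ℕ) : ℝ)) ∧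
    (∀ (c n k s r : ℕ) (Ω : Type) [MeasurableSpace Ω] (μ : Measure Ω)
      [IsProbabilityMeasure μ] (V : Ω → Fin r → GTree ℝ) (f : Ω → (Fin r → Prop) → Prop)
      (q δ : ℝ), c + 6 ≤ n → k ≤ n ^ c → s ≤ n ^ c → r ≤ 2 ^ n ^ c → 1 / 2 ^ n ^ c ≤ δ →
      (∀ ω i, (V ω i).Bounded (n ^ c) (2 ^ n ^ c)) →
      ¬ (Advantage μ (fun ω x => f ω fun i => Acc (fun v : ℝ => 0 ≤ v) (V ω i) k s x) q δ
          (SumSet n (n ^ (4 * c + 5))) ∨
        Advantage μ (fun ω x => f ω fun i => Acc (fun v : ℝ => 0 ≤ v) (V ω i) k s x) q δ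
          (SumSet n (n ^ (4 * c + 5)))ᶜ)) ∧
    (∀ (c n k s r : ℕ) (V : Fin r → GTree ℝ) (f : (Fin r → Prop) → Prop),
      c + 6 ≤ n → k ≤ n ^ c → s ≤ n ^ c → r ≤ 2 ^ n ^ c →
      (∀ i, (V i).Bounded (n ^ c) (2 ^ n ^ c)) →
      ¬ ∀ x : (Fin n → ℝ) × ℝ, x ∈ SumSet n (n ^ (4 * c + 5)) ↔
        f fun i => Acc (fun v : ℝ => 0 ≤ v) (V i) k s x) := by
  have h4 : ∀ (c n k s r : ℕ) (Ω : Type) [MeasurableSpace Ω] (μ : Measure Ω)
      [IsProbabilityMeasure μ] (V : Ω → Fin r → GTree ℝ) (f : Ω → (Fin r → Prop) → Prop)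
      (q δ : ℝ), c + 6 ≤ n → k ≤ n ^ c → s ≤ n ^ c → r ≤ 2 ^ n ^ c → 1 / 2 ^ n ^ c ≤ δ →
      (∀ ω i, (V ω i).Bounded (n ^ c) (2 ^ n ^ c)) →
      ¬ (Advantage μ (fun ω x => f ω fun i => Acc (fun v : ℝ => 0 ≤ v) (V ω i) k s x) q δ
          (SumSet n (n ^ (4 * c + 5))) ∨
        Advantage μ (fun ω x => f ω fun i => Acc (fun v : ℝ => 0 ≤ v) (V ω i) k s x) q δ
          (SumSet n (n ^ (4 * c + 5)))ᶜ) := by
    intro c n k s r Ω _ μ _ V f q δ hn hk hs hr hδ hV h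
    exact absurd (rand_lower cell_bound μ hV f h) (not_le.2 (rnum_real hn hk hs hr hδ))
  refine ⟨fun n m => ?_, ?_, ?_, h4, ?_⟩
  · obtain ⟨V, h1, h2, -⟩ := sumSet_local n m
    exact ⟨V, h1, h2⟩
  · intro n k s a D r M Ω _ μ _ V f q δ S hV h x₀ e e' h1 h2 h3 h5
    exact rand_slice cell_bound μ hV f h x₀ e e' h1 h2 h3 h5
  · intro n m k s a D r Ω _ μ _ V f q δ hV h
    exact rand_lower cell_bound μ hV f h
  · intro c n k s r V f hn hk hs hr hV h
    refine h4 c n k s r Unit (Measure.dirac ()) (fun _ => V) (fun _ => f) 0 1 hn hk hs hr ?_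
      (fun _ => hV) (Or.inl ⟨fun x hx => ⟨Set.univ, MeasurableSet.univ, ?_, fun _ _ => (h x).1 hx⟩,
        fun x hx => ?_⟩)
    · rw [div_le_one (by positivity)]
      exact one_le_pow₀ (by norm_num)
    · rw [probReal_univ, zero_add]
    · have h5 : {ω : Unit | f fun i => Acc (fun v : ℝ => 0 ≤ v) (V i) k s x} = ∅ := by
        ext ω
        simp only [Set.mem_ofPred_eq, Set.mem_empty_iff_false, iff_false]
        exact fun h6 => hx ((h x).2 h6)
      rw [h5, measureReal_empty]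

end Pool.Agent.Results.MP_641cb6_lc.GuessingMachines
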