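import Pool.Agent.Lib.MP_641cb6_lc.KG.RealNum
import Pool.Agent.Lib.MP_641cb6_lc.KG.Up
import Pool.Agent.Lib.MP_641cb6_lc.KD.RealLocal

namespace Pool.Agent.Results.MP_641cb6_lc.PolynomialGatesReal

open Pool.Agent.Lib.MP_641cb6_lc Pool.Agent.Lib.MP_641cb6_lc.KG

/-- (1), (2) `RootSum n m` and its complement are verified by computation trees whose gates are
linear polynomials in two values, with at most `n (m + 2) + 4` guesses from `ℝ` in
`30 (m + 1) (n + 1)` steps, and every gate on which a tested value depends itself depends on at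
most two gates.
(3) If finitely many computation trees over the reals, of any (even infinite) depth, with free
constants, products, quotients and order tests and with gates that evaluate arbitrary polynomials
of degree at most `D` in at most `a` values, decide `RootSum n m` jointly (by any Boolean function
of their answers), `n ≥ 1`, then one of them branches on some input on a value that depends on a
gate which depends on exactly `s` gates, where `2 ^ (m n) ≤ (2 s + 1) R1 (s (a + 2)) D` and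
`R1 r D = (D + 2) ^ (r + 1) (2 r + 6) ^ ((r + 2) ^ 2)`.
(4) `s > n ^ c` for `a = n ^ c`, `D = 2 ^ (n ^ c)`, `m = n ^ (4 c + 3)`, `n ≥ c + 4`. -/
theorem result :
    (∀ n m : ℕ, ∃ V : GTree ℝ, V.Bounded 2 1 ∧
      Verifies (fun v : ℝ => 0 ≤ v) V (n * (m + 1) + (n + 1)) (30 * (m + 1) * (n + 1))
        (RootSum n m) ∧
      ∀ (x : (Fin (n + (n * (m + 1) + (n + 1))) → ℝ) × ℝ) (s : ℕ),
        UsesGate (fun v : ℝ => 0 ≤ v) V x s → s ≤ 2) ∧
    (∀ n m : ℕ, ∃ V : GTree ℝ, V.Bounded 2 1 ∧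
      Verifies (fun v : ℝ => 0 ≤ v) V (n * (m + 1) + (n + 1) + 3) (30 * (m + 1) * (n + 1))
        (RootSum n m)ᶜ ∧
      ∀ (x : (Fin (n + (n * (m + 1) + (n + 1) + 3)) → ℝ) × ℝ) (s : ℕ),
        UsesGate (fun v : ℝ => 0 ≤ v) V x s → s ≤ 2) ∧
    (∀ (n m N a D : ℕ) (T : Fin N → GTree ℝ) (Φ : (Fin N → Bool) → Prop), 1 ≤ n →
      (∀ w, (T w).Bounded a D) → Decides (fun v : ℝ => 0 ≤ v) T Φ (RootSum n m) →
      ∃ (w : Fin N) (x : (Fin n → ℝ) × ℝ) (s : ℕ), UsesGate (fun v : ℝ => 0 ≤ v) (T w) x s ∧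
        2 ^ (m * n) ≤ (2 * s + 1) * R1 (s * (a + 2)) D) ∧
    (∀ (c n N : ℕ) (T : Fin N → GTree ℝ) (Φ : (Fin N → Bool) → Prop), c + 4 ≤ n →
      (∀ w, (T w).Bounded (n ^ c) (2 ^ (n ^ c))) →
      Decides (fun v : ℝ => 0 ≤ v) T Φ (RootSum n (n ^ (4 * c + 3))) →
      ∃ (w : Fin N) (x : (Fin n → ℝ) × ℝ) (s : ℕ),
        UsesGate (fun v : ℝ => 0 ≤ v) (T w) x s ∧ n ^ c < s) := by
  refine ⟨fun n m => ?_, fun n m => ?_, fun _ _ _ _ _ T Φ hn hT h => real_gate hn T hT Φ h,
    fun _ _ _ T Φ hn hT h => real_gate_poly hn T hT Φ h⟩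
  · obtain ⟨V, h1, h2⟩ := KD.rootSum_local n m
    exact ⟨toG V, toG_bounded V, toG_verifies h2,
      fun x s hs => h1.uses x s ((toG_uses _ V x s).1 hs)⟩
  · obtain ⟨V, h1, h2⟩ := KD.rootSum_compl_local n m
    exact ⟨toG V, toG_bounded V, toG_verifies h2,
      fun x s hs => h1.uses x s ((toG_uses _ V x s).1 hs)⟩

end Pool.Agent.Results.MP_641cb6_lc.PolynomialGatesReal
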