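import Pool.Agent.Lib.MP_641cb6_lc.KG.CDeep
import Pool.Agent.Lib.MP_641cb6_lc.KG.Up
import Pool.Agent.Lib.MP_641cb6_lc.KD.TowerUpper

namespace Pool.Agent.Results.MP_641cb6_lc.PolynomialGatesTower

open Pool.Agent.Lib.MP_641cb6_lc Pool.Agent.Lib.MP_641cb6_lc.KG
open Pool.Agent.Lib.MP_641cb6_lc.KC (TowerSet)

/-- (1) `TowerSet m` is verified by a computation tree over `ℂ` whose gates are linear polynomials
in two values, with `m` guesses from `ℂ` in `9 m + 5` steps, and every gate on which a tested value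
depends itself depends on at most two gates.
(2) If finitely many computation trees over `ℂ`, of any (even infinite) depth, with free constants,
products, quotients and equality tests and with gates that evaluate arbitrary polynomials of degree
at most `D` in at most `a` values, decide `TowerSet m` jointly (by any Boolean function of their
answers), then one of them branches on some input on a value that depends on a gate which depends
on exactly `s` gates, where `2 ^ m < (2 (D + 2) ^ (2 r + 1) (6 r + 7) ^ ((2 r + 2) ^ 2) + 1) ^ s`,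
`r = s (a + 2)`.
(3) `s > n ^ c` for `a = n ^ c`, `D = 2 ^ (n ^ c)`, `m = n ^ (5 c + 5)`, `n ≥ c + 4`. -/
theorem result :
    (∀ m : ℕ, ∃ V : GTree ℂ, V.Bounded 2 1 ∧
      Verifies (fun v : ℂ => v = 0) V m (9 * m + 5) (TowerSet m) ∧
      ∀ (x : (Fin (2 + m) → ℂ) × ℂ) (s : ℕ), UsesGate (fun v : ℂ => v = 0) V x s → s ≤ 2) ∧
    (∀ (m N a D : ℕ) (T : Fin N → GTree ℂ) (Φ : (Fin N → Bool) → Prop),
      (∀ w, (T w).Bounded a D) → Decides (fun v : ℂ => v = 0) T Φ (TowerSet m) →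
      ∃ (w : Fin N) (x : (Fin 2 → ℂ) × ℂ) (s : ℕ), UsesGate (fun v : ℂ => v = 0) (T w) x s ∧
        2 ^ m < (2 * ((D + 2) ^ (2 * (s * (a + 2)) + 1) *
          (6 * (s * (a + 2)) + 7) ^ (2 * (s * (a + 2)) + 2) ^ 2) + 1) ^ s) ∧
    (∀ (c n N : ℕ) (T : Fin N → GTree ℂ) (Φ : (Fin N → Bool) → Prop), c + 4 ≤ n →
      (∀ w, (T w).Bounded (n ^ c) (2 ^ (n ^ c))) →
      Decides (fun v : ℂ => v = 0) T Φ (TowerSet (n ^ (5 * c + 5))) →
      ∃ (w : Fin N) (x : (Fin 2 → ℂ) × ℂ) (s : ℕ), UsesGate (fun v : ℂ => v = 0) (T w) x s ∧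
        n ^ c < s) := by
  refine ⟨fun m => ?_, fun _ _ _ _ T Φ hT h => tower_gate slopes_BG T hT Φ h,
    fun _ _ _ T Φ hn hT h => ?_⟩
  · obtain ⟨V, h1, h2⟩ := KD.tower_verifies m
    exact ⟨toG V, toG_bounded V, toG_verifies h1, fun x s hs => h2 x s ((toG_uses _ V x s).1 hs)⟩
  · obtain ⟨w, x, s, h1, h2⟩ := tower_gate slopes_BG T hT Φ h
    exact ⟨w, x, s, h1, BG_lt hn h2⟩

end Pool.Agent.Results.MP_641cb6_lc.PolynomialGatesTower
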